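import Pool.Agent.W728.PK.Stms

set_option autoImplicit false
open Complex Metric Set Filter Topology MeasureTheory
open scoped Real ComplexConjugate ENNReal

namespace Pool.Agent.W140.PK
open Pool.Agent.W728.PK

/-- a nonzero holomorphic function of the disc is nonzero at almost all points of each circle -/
theorem ae_ne_zero {f : ℂ → ℂ} (hf : DifferentiableOn ℂ f (ball (0 : ℂ) 1))
    (hz : ∃ z ∈ ball (0 : ℂ) 1, f z ≠ 0) {r : ℝ} (hr0 : 0 < r) (hr1 : r < 1) :
    ∀ᵐ θ : ℝ ∂(volume.restrict (Ioc (0 : ℝ) (2 * π))), f (circleMap 0 r θ) ≠ 0 := by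
  obtain ⟨z, hz, hfz⟩ := hz
  have han : AnalyticOnNhd ℂ f (ball (0 : ℂ) 1) := hf.analyticOnNhd isOpen_ball
  have hconn : IsConnected (ball (0 : ℂ) 1) :=
    ⟨⟨0, mem_ball_self one_pos⟩, (convex_ball (0 : ℂ) 1).isPreconnected⟩
  have h1 := han.preimage_zero_mem_codiscreteWithin hfz hz hconn
  have hsub : sphere (0 : ℂ) |r| ⊆ ball (0 : ℂ) 1 := by
    intro w hw
    rw [mem_sphere, abs_of_pos hr0] at hw
    rw [mem_ball, hw]
    exact hr1
  have h2 : f ⁻¹' {0}ᶜ ∈ codiscreteWithin (sphere (0 : ℂ) |r|) := codiscreteWithin_mono hsub h1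
  have h3 := circleMap_preimage_codiscrete (c := 0) hr0.ne' h2
  have h4 := codiscreteWithin_mono (subset_univ (Ioc (0 : ℝ) (2 * π))) h3
  have h5 := ae_restrict_le_codiscreteWithin (μ := volume) measurableSet_Ioc h4
  filter_upwards [h5] with θ hθ
  exact hθ

theorem t_FAT (hJ : JEN_stmt) : FAT_stmt := by
  intro α hα E hE hDiv f hf hz A c hA hc hb
  -- E is nonempty
  have hEne : E.Nonempty := by
    by_contra h
    rw [not_nonempty_iff_eq_empty] at h
    subst h
    unfold Pool.Agent.W728.PK.Div at hDiv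
    simp only [infDist_empty, Real.zero_rpow (neg_ne_zero.mpr hα.ne'), ENNReal.ofReal_zero,
      lintegral_zero] at hDiv
    exact ENNReal.zero_ne_top hDiv
  obtain ⟨K, hK⟩ := hJ f hf hz
  set μ : Measure ℝ := volume.restrict (Ioc (0 : ℝ) (2 * π)) with hμ
  -- the functions
  set F : ℝ → ℝ → ℝ≥0∞ := fun r θ => ENNReal.ofReal (c * infDist (circleMap 0 r θ) E ^ (-α)) with hF
  have hmeas : ∀ r, Measurable (F r) := by
    intro r
    have h1 : Measurable fun θ : ℝ => infDist (circleMap 0 r θ) E :=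
      ((continuous_infDist_pt E).comp (continuous_circleMap 0 r)).measurable
    exact ((h1.pow_const (-α)).const_mul c).ennreal_ofReal
  have hbound : ∀ r : ℝ, 1 / 2 ≤ r → r < 1 →
      ∫⁻ θ, F r θ ∂μ ≤ ENNReal.ofReal (2 * π * (Real.log A + K)) := by
    intro r hr0 hr1
    obtain ⟨hci, hav⟩ := hK r hr0 hr1
    have hr0' : 0 < r := by linarith
    have hae := ae_ne_zero hf hz hr0' hr1
    have hcirc : ∀ θ : ℝ, circleMap 0 r θ ∈ ball (0 : ℂ) 1 := by
      intro θ
      rw [mem_ball, dist_eq_norm, circleMap_sub_center, norm_circleMap_zero, abs_of_pos hr0']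
      exact hr1
    have hle : ∀ᵐ θ : ℝ ∂μ, c * infDist (circleMap 0 r θ) E ^ (-α) ≤
        Real.log A - Real.log ‖f (circleMap 0 r θ)‖ := by
      filter_upwards [hae] with θ hθ
      have h1 := hb _ (hcirc θ)
      have h2 := Real.log_le_log (norm_pos_iff.mpr hθ) h1
      rw [Real.log_mul (by linarith) (Real.exp_pos _).ne', Real.log_exp] at h2
      linarith
    have hnn : 0 ≤ᵐ[μ] fun θ => Real.log A - Real.log ‖f (circleMap 0 r θ)‖ := by
      filter_upwards [hle] with θ hθ
      refine le_trans ?_ hθ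
      exact mul_nonneg hc.le (Real.rpow_nonneg infDist_nonneg _)
    have hint : Integrable (fun θ => Real.log A - Real.log ‖f (circleMap 0 r θ)‖) μ := by
      have h1 : IntervalIntegrable (fun θ => Real.log ‖f (circleMap 0 r θ)‖) volume 0 (2 * π) := hci
      rw [intervalIntegrable_iff_integrableOn_Ioc_of_le (by positivity)] at h1
      exact (integrable_const _).sub h1
    calc ∫⁻ θ, F r θ ∂μ
        ≤ ∫⁻ θ, ENNReal.ofReal (Real.log A - Real.log ‖f (circleMap 0 r θ)‖) ∂μ := by
          apply lintegral_mono_ae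
          filter_upwards [hle] with θ hθ
          exact ENNReal.ofReal_le_ofReal hθ
      _ = ENNReal.ofReal (∫ θ, (Real.log A - Real.log ‖f (circleMap 0 r θ)‖) ∂μ) :=
          (ofReal_integral_eq_lintegral_ofReal hint hnn).symm
      _ ≤ ENNReal.ofReal (2 * π * (Real.log A + K)) := by
          apply ENNReal.ofReal_le_ofReal
          have h1 : Integrable (fun θ => Real.log ‖f (circleMap 0 r θ)‖) μ := by
            have h1 : IntervalIntegrable (fun θ => Real.log ‖f (circleMap 0 r θ)‖) volume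
              0 (2 * π) := hci
            rw [intervalIntegrable_iff_integrableOn_Ioc_of_le (by positivity)] at h1
            exact h1
          rw [integral_sub (integrable_const _) h1]
          rw [Real.circleAverage_def, intervalIntegral.integral_of_le (by positivity),
            smul_eq_mul] at hav
          have h2 : ∫ θ, Real.log A ∂μ = 2 * π * Real.log A := by
            rw [hμ, integral_const, smul_eq_mul]
            simp [Real.pi_pos.le]
          rw [h2]
          have h3 : -(2 * π * K) ≤ ∫ θ, Real.log ‖f (circleMap 0 r θ)‖ ∂μ := by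
            have h4 : (2 * π) * (-K) ≤ (2 * π) * ((2 * π)⁻¹ *
                ∫ θ, Real.log ‖f (circleMap 0 r θ)‖ ∂μ) :=
              mul_le_mul_of_nonneg_left hav (by positivity)
            rw [← mul_assoc, mul_inv_cancel₀ (by positivity), one_mul] at h4
            linarith
          linarith
  -- Fatou
  set R : ℕ → ℝ := fun n => 1 - 1 / ((n : ℝ) + 2) with hR
  have hRlim : Tendsto R atTop (𝓝 1) := by
    have h1 : Tendsto (fun n : ℕ => 1 / ((n : ℝ) + 2)) atTop (𝓝 0) := by
      have h2 := tendsto_one_div_atTop_nhds_zero_nat (𝕜 := ℝ)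
      have h3 := h2.comp (tendsto_add_atTop_nat 2)
      refine h3.congr fun n => ?_
      simp
    have h2 := (tendsto_const_nhds (x := (1 : ℝ))).sub h1
    simpa [hR] using h2
  have hR0 : ∀ n, 1 / 2 ≤ R n := by
    intro n
    have h1 : (1 : ℝ) / ((n : ℝ) + 2) ≤ 1 / 2 :=
      one_div_le_one_div_of_le (by norm_num) (by linarith [n.cast_nonneg (α := ℝ)])
    simp only [hR]
    linarith
  have hR1 : ∀ n, R n < 1 := by
    intro n
    have h1 : 0 < (1 : ℝ) / ((n : ℝ) + 2) := by positivity
    simp only [hR]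
    linarith
  have hfat := lintegral_liminf_le (μ := μ) (f := fun n => F (R n)) (u := atTop)
    (fun n => hmeas (R n))
  have hlim : liminf (fun n => ∫⁻ θ, F (R n) θ ∂μ) atTop ≤
      ENNReal.ofReal (2 * π * (Real.log A + K)) := by
    apply liminf_le_of_frequently_le'
    exact Frequently.of_forall fun n => hbound _ (hR0 n) (hR1 n)
  have hpt : ∀ θ : ℝ, ENNReal.ofReal (c * infDist (Complex.exp ((θ : ℂ) * I)) E ^ (-α)) ≤
      liminf (fun n => F (R n) θ) atTop := by
    intro θ
    rcases (infDist_nonneg (x := Complex.exp ((θ : ℂ) * I)) (s := E)).eq_or_lt with h0 | h0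
    · rw [← h0, Real.zero_rpow (neg_ne_zero.mpr hα.ne')]
      simp
    · have h1 : Tendsto (fun n => circleMap 0 (R n) θ) atTop (𝓝 (Complex.exp ((θ : ℂ) * I))) := by
        have h2 : Tendsto (fun n => (0 : ℂ) + ((R n : ℝ) : ℂ) * Complex.exp ((θ : ℂ) * I)) atTop
            (𝓝 (0 + ((1 : ℝ) : ℂ) * Complex.exp ((θ : ℂ) * I))) :=
          tendsto_const_nhds.add
            (((Complex.continuous_ofReal.tendsto 1).comp hRlim).mul tendsto_const_nhds)
        simpa [circleMap] using h2
      have h2 : Tendsto (fun n => F (R n) θ) atTop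
          (𝓝 (ENNReal.ofReal (c * infDist (Complex.exp ((θ : ℂ) * I)) E ^ (-α)))) := by
        simp only [hF]
        apply ENNReal.tendsto_ofReal
        apply Tendsto.const_mul
        apply Tendsto.rpow_const
        · exact ((continuous_infDist_pt E).tendsto _).comp h1
        · left; exact h0.ne'
      rw [h2.liminf_eq]
  have hfin : ∫⁻ θ, ENNReal.ofReal (c * infDist (Complex.exp ((θ : ℂ) * I)) E ^ (-α)) ∂μ ≤
      ENNReal.ofReal (2 * π * (Real.log A + K)) :=
    (lintegral_mono hpt).trans (hfat.trans hlim)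
  unfold Pool.Agent.W728.PK.Div at hDiv
  have h1 : ∫⁻ θ, ENNReal.ofReal (c * infDist (Complex.exp ((θ : ℂ) * I)) E ^ (-α)) ∂μ =
      ENNReal.ofReal c * ∫⁻ θ, ENNReal.ofReal (infDist (Complex.exp ((θ : ℂ) * I)) E ^ (-α)) ∂μ := by
    rw [← lintegral_const_mul' _ _ ENNReal.ofReal_ne_top]
    congr 1
    funext θ
    rw [ENNReal.ofReal_mul hc.le]
  rw [h1, hμ, hDiv, ENNReal.mul_top (by simpa using hc)] at hfin
  exact absurd hfin (by simp)

end Pool.Agent.W140.PK
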